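import Pool.Agent.H58.JU.Targets

/-!
# Row ARG (MP_6a7a6f_gt): the unique point of maximum depends continuously on the parameter
-/

set_option autoImplicit false

namespace Pool.Agent.H12.JU

open Pool.Agent.H58.JU Pool.Agent.H59 Pool.Agent.H48.FR Pool.Agent.H58.FL

theorem pf_ARG : T_ARG := by
  intro X M _ _ _ _ g hg huniq
  have hgx : ∀ x, Continuous (g x) := fun x =>
    hg.comp (Continuous.prodMk continuous_const continuous_id)
  have hex : ∀ x, ∃ c, IsMx (g x) c := by
    intro x
    obtain ⟨c, -, hc⟩ := isCompact_univ.exists_isMaxOn (Set.univ_nonempty (α := M))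
      (hgx x).continuousOn
    exact ⟨c, fun a => hc (Set.mem_univ a)⟩
  choose r hr using hex
  have hclosed : IsClosed {q : X × M | IsMx (g q.1) q.2} := by
    have h1 : {q : X × M | IsMx (g q.1) q.2} = ⋂ a : M, {q : X × M | g q.1 a ≤ g q.1 q.2} := by
      ext q
      simp only [Set.mem_setOf_eq, Set.mem_iInter]
      exact Iff.rfl
    rw [h1]
    refine isClosed_iInter fun a => isClosed_le ?_ hg
    exact hg.comp (Continuous.prodMk continuous_fst continuous_const)
  have hcont : Continuous r := by
    rw [continuous_iff_isClosed]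
    intro C hC
    have h1 : r ⁻¹' C = Prod.fst '' ({q : X × M | IsMx (g q.1) q.2} ∩ Prod.snd ⁻¹' C) := by
      ext x
      constructor
      · intro hx
        exact ⟨(x, r x), ⟨hr x, hx⟩, rfl⟩
      · rintro ⟨⟨x', c⟩, ⟨h1, h2⟩, rfl⟩
        have h3 : r x' = c := huniq x' _ _ (hr x') h1
        show r x' ∈ C
        rw [h3]
        exact h2
    rw [h1]
    exact isClosedMap_fst_of_compactSpace _ (hclosed.inter (hC.preimage continuous_snd))
  exact ⟨⟨r, hcont⟩, hr⟩

end Pool.Agent.H12.JU
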